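import Mathlib

set_option autoImplicit false

namespace Pool.Agent.Results.MP_f5b231_co.Bound

open Finset

/-- S is a forcing set of the perfect matching M. -/
def IsForcing {V : Type} {G : SimpleGraph V} (M : G.Subgraph) (S : Set (Sym2 V)) : Prop :=
  S ⊆ M.edgeSet ∧ ∀ M' : G.Subgraph, M'.IsPerfectMatching → S ⊆ M'.edgeSet → M' = M

/-- The forcing number of M. -/
noncomputable def forcingNum {V : Type} {G : SimpleGraph V} (M : G.Subgraph) : ℕ :=
  sInf {k | ∃ S, IsForcing M S ∧ S.ncard = k}

/-- The maximum forcing number of G. -/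
noncomputable def maxForcing {V : Type} (G : SimpleGraph V) : ℕ :=
  sSup {k | ∃ M : G.Subgraph, M.IsPerfectMatching ∧ forcingNum M = k}

theorem caroWei {α : Type} [DecidableEq α] (out : α → Finset α) (hirr : ∀ v, v ∉ out v)
    (X : Finset α) : ∃ A ⊆ X, (∀ B ⊆ A, B.Nonempty → ∃ v ∈ B, ∀ w ∈ B, w ∉ out v) ∧
      ∑ v ∈ X, 1 / (1 + ((out v ∩ X).card : ℚ)) ≤ A.card := by
  induction X using Finset.strongInduction with
  | H X ih =>
  rcases X.eq_empty_or_nonempty with rfl | hne
  · exact ⟨∅, Subset.rfl, by simp, by simp⟩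
  by_cases h0 : ∃ v ∈ X, out v ∩ X = ∅
  · obtain ⟨v, hv, h0⟩ := h0
    obtain ⟨A, hA, h1, h2⟩ := ih (X.erase v) (erase_ssubset hv)
    have hvA : v ∉ A := fun h => by simpa using hA h
    have hsub : insert v A ⊆ X := insert_subset hv (hA.trans (erase_subset _ _))
    refine ⟨insert v A, hsub, fun B hB hBn => ?_, ?_⟩
    · by_cases hvB : v ∈ B
      · refine ⟨v, hvB, fun w hw hw' => ?_⟩
        have : w ∈ out v ∩ X := mem_inter.2 ⟨hw', hsub (hB hw)⟩
        simp [h0] at this
      · exact h1 B ((subset_insert_iff_of_notMem hvB).1 hB) hBn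
    · rw [← add_sum_erase _ _ hv, h0, card_insert_of_notMem hvA]
      push_cast
      have : ∑ x ∈ X.erase v, 1 / (1 + ((out x ∩ X).card : ℚ)) ≤
          ∑ x ∈ X.erase v, 1 / (1 + ((out x ∩ X.erase v).card : ℚ)) := by
        refine sum_le_sum fun x _ => one_div_le_one_div_of_le (by positivity) ?_
        have := card_le_card (inter_subset_inter_left (s := out x) (erase_subset v X))
        exact_mod_cast Nat.add_le_add_left this 1
      simp only [card_empty, Nat.cast_zero, add_zero, div_one]
      linarith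
  · push Not at h0
    have key : ∑ v ∈ X, ∑ u ∈ X, 1 / (1 + ((out u ∩ X).card : ℚ)) ≤
        ∑ v ∈ X, ∑ u ∈ X.erase v, 1 / (1 + ((out u ∩ X.erase v).card : ℚ)) := by
      have e1 : ∀ v ∈ X, ∑ u ∈ X.erase v, 1 / (1 + ((out u ∩ X.erase v).card : ℚ)) =
          ∑ u ∈ X, if u = v then 0 else
            if v ∈ out u then 1 / ((out u ∩ X).card : ℚ) else 1 / (1 + ((out u ∩ X).card : ℚ)) := by
        intro v hv
        rw [← add_sum_erase _ _ hv, if_pos rfl, zero_add]
        refine sum_congr rfl fun u hu => ?_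
        rw [if_neg (ne_of_mem_erase hu), inter_erase]
        split_ifs with h
        · have h1 := card_erase_add_one (mem_inter.2 ⟨h, hv⟩)
          rw [← h1]
          push_cast
          rw [add_comm]
        · rw [erase_eq_of_notMem (fun h' => h (mem_inter.1 h').1)]
      rw [sum_congr rfl e1, sum_comm, sum_comm (s := X) (t := X) (f := fun v u => if u = v then 0 else _)]
      refine sum_le_sum fun u hu => le_of_eq ?_
      have hd : ((out u ∩ X).card : ℚ) ≠ 0 := by
        exact_mod_cast (card_pos.2 (h0 u hu)).ne'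
      have e2 : ∀ v ∈ X, (if u = v then (0 : ℚ) else
            if v ∈ out u then 1 / ((out u ∩ X).card : ℚ) else 1 / (1 + ((out u ∩ X).card : ℚ))) =
          1 / (1 + ((out u ∩ X).card : ℚ)) + (if v ∈ out u then
            1 / ((out u ∩ X).card : ℚ) - 1 / (1 + ((out u ∩ X).card : ℚ)) else 0) -
            if u = v then 1 / (1 + ((out u ∩ X).card : ℚ)) else 0 := by
        intro v _
        by_cases h1 : u = v
        · subst h1
          simp [hirr u]
        · split_ifs <;> ring
      rw [sum_congr rfl e2, sum_sub_distrib, sum_add_distrib, sum_ite_eq, if_pos hu, ← sum_filter,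
        filter_mem_eq_inter, inter_comm X, sum_const (s := out u ∩ X), nsmul_eq_mul]
      field_simp
      ring
    obtain ⟨v, hv, h1⟩ := exists_le_of_sum_le hne key
    obtain ⟨A, hA, h2, h3⟩ := ih (X.erase v) (erase_ssubset hv)
    exact ⟨A, hA.trans (erase_subset _ _), h2, h1.trans h3⟩

theorem main {V : Type} [Fintype V] [DecidableEq V] (G : SimpleGraph V) [DecidableRel G.Adj] (n : ℕ)
    (hn : Fintype.card V = 2 * n) (M : G.Subgraph) (hM : M.IsPerfectMatching) :
    ∃ a : ℕ, forcingNum M + a ≤ n ∧ (n : ℚ) ^ 2 / G.edgeFinset.card ≤ a ∧ n ≤ G.edgeFinset.card := by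
  choose m hm hmu using SimpleGraph.Subgraph.isPerfectMatching_iff.1 hM
  have hmm : ∀ v, m (m v) = v := fun v => (hmu (m v) v (hm v).symm).symm
  have hmG : ∀ v, G.Adj v (m v) := fun v => M.adj_sub (hm v)
  let key : V → ℕ ×ₗ Fin (Fintype.card V) := fun v => toLex (G.degree v, Fintype.equivFin V v)
  have hkey : Function.Injective key := fun a b h =>
    (Fintype.equivFin V).injective (congrArg (fun x => (ofLex x).2) h)
  let U : Finset V := univ.filter fun v => key v < key (m v)
  have hU : ∀ v, v ∈ U ↔ m v ∉ U := by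
    intro v
    simp only [U, mem_filter, mem_univ, true_and, hmm, not_lt]
    exact ⟨le_of_lt, fun h => lt_of_le_of_ne h (hkey.ne (hmG v).ne)⟩
  have hsum : ∀ f : V → ℕ, ∑ v, f v = ∑ v ∈ U, (f v + f (m v)) := by
    intro f
    rw [← sum_add_sum_compl U, sum_add_distrib]
    congr 1
    refine sum_nbij' m m (fun v hv => ?_) (fun v hv => ?_) (fun v _ => hmm v) (fun v _ => hmm v)
      (fun v _ => by rw [hmm])
    · rw [hU, hmm]; exact mem_compl.1 hv
    · exact mem_compl.2 ((hU v).1 hv)
  have hUc : U.card = n := by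
    have := hsum fun _ => 1
    simp at this
    omega
  have hdeg : ∑ v ∈ U, G.degree v ≤ G.edgeFinset.card := by
    have h1 := hsum fun v => G.degree v
    rw [G.sum_degrees_eq_twice_card_edges, sum_add_distrib] at h1
    have h2 : ∑ v ∈ U, G.degree v ≤ ∑ v ∈ U, G.degree (m v) := by
      refine sum_le_sum fun v hv => ?_
      have := (mem_filter.1 hv).2
      rcases Prod.Lex.toLex_lt_toLex.1 this with h | h
      · exact h.le
      · exact h.1.le
    omega
  let rep : V → V := fun w => if w ∈ U then w else m w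
  let out : V → Finset V := fun v => (((G.neighborFinset v).erase (m v)).image rep).erase v
  obtain ⟨A, hA, h1, h2⟩ := caroWei out (fun v => notMem_erase _ _) U
  have hout : ∀ v, 1 + (out v ∩ U).card ≤ G.degree v := by
    intro v
    have a1 : (out v ∩ U).card ≤ ((G.neighborFinset v).erase (m v)).card :=
      (card_le_card inter_subset_left).trans ((card_erase_le).trans card_image_le)
    have a2 := card_erase_add_one ((G.mem_neighborFinset v _).2 (hmG v))
    rw [G.card_neighborFinset_eq_degree] at a2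
    omega
  have hne : n ≤ G.edgeFinset.card := by
    refine le_trans ?_ hdeg
    rw [← hUc, card_eq_sum_ones]
    exact sum_le_sum fun v _ => le_trans (Nat.le_add_right _ _) (hout v)
  refine ⟨A.card, ?_, le_trans ?_ h2, hne⟩
  · have hF : IsForcing M (((U \ A).image fun v => s(v, m v) : Finset _) : Set (Sym2 V)) := by
      constructor
      · intro e he
        obtain ⟨v, -, rfl⟩ := mem_image.1 (mem_coe.1 he)
        exact hm v
      · intro M' hM' hS
        choose m' hm' hmu' using SimpleGraph.Subgraph.isPerfectMatching_iff.1 hM'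
        have hmm' : ∀ v, m' (m' v) = v := fun v => (hmu' (m' v) v (hm' v).symm).symm
        have hout' : ∀ v ∈ U, v ∉ A → m' v = m v := by
          intro v hv hvA
          have : s(v, m v) ∈ M'.edgeSet :=
            hS (mem_coe.2 (mem_image.2 ⟨v, mem_sdiff.2 ⟨hv, hvA⟩, rfl⟩))
          exact (hmu' v _ this).symm
        have hall : ∀ v ∈ U, m' v = m v := by
          by_contra hcon
          push Not at hcon
          obtain ⟨v0, hv0, hv0'⟩ := hcon
          have hB : ∀ v ∈ U, m' v ≠ m v → v ∈ A := fun v hv h => by_contra fun h' => h (hout' v hv h')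
          obtain ⟨v, hv, h3⟩ := h1 (A.filter fun v => m' v ≠ m v) (filter_subset _ _)
            ⟨v0, mem_filter.2 ⟨hB v0 hv0 hv0', hv0'⟩⟩
          obtain ⟨hvA, hvm⟩ := mem_filter.1 hv
          have hadj : G.Adj v (m' v) := M'.adj_sub (hm' v)
          have hr : rep (m' v) ∈ U ∧ m' (rep (m' v)) ≠ m (rep (m' v)) ∧ rep (m' v) ≠ v := by
            by_cases hw : m' v ∈ U
            · simp only [rep, if_pos hw, hmm']
              exact ⟨hw, fun h => hvm (by rw [← hmm (m' v), ← h]), hadj.ne'⟩
            · simp only [rep, if_neg hw, hmm]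
              refine ⟨by rw [hU, hmm]; exact hw, fun h => hvm ?_, fun h => hvm (by rw [← hmm (m' v), h])⟩
              have := congrArg m' h
              rw [hmm', hmm'] at this
              rw [← hmm (m' v), this]
          exact h3 _ (mem_filter.2 ⟨hB _ hr.1 hr.2.1, hr.2.1⟩) (mem_erase.2 ⟨hr.2.2,
            mem_image_of_mem _ (mem_erase.2 ⟨hvm, (G.mem_neighborFinset _ _).2 hadj⟩)⟩)
        have hall' : ∀ v, m' v = m v := by
          intro v
          by_cases hv : v ∈ U
          · exact hall v hv
          · have := hall (m v) (by rw [hU, hmm]; exact hv)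
            rw [hmm] at this
            rw [← this, hmm', this]
        ext v w
        · simp [hM.2.verts_eq_univ, hM'.2.verts_eq_univ]
        · exact ⟨fun h => by rw [hmu' v w h, hall']; exact hm v,
            fun h => by rw [hmu v w h, ← hall']; exact hm' v⟩
    have h3 : forcingNum M ≤ _ := Nat.sInf_le ⟨_, hF, rfl⟩
    rw [Set.ncard_coe_finset] at h3
    have h4 := card_image_le (s := U \ A) (f := fun v => s(v, m v))
    have h5 := card_sdiff_add_card_eq_card hA
    omega
  · have h3 := sq_sum_div_le_sum_sq_div U (fun _ => (1 : ℚ))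
      (g := fun v => 1 + ((out v ∩ U).card : ℚ)) (fun _ _ => add_pos_of_pos_of_nonneg one_pos (Nat.cast_nonneg _))
    simp only [sum_const, nsmul_eq_mul, mul_one, one_pow, hUc] at h3
    refine le_trans ?_ h3
    rcases Nat.eq_zero_or_pos n with rfl | hpos
    · simp
    refine div_le_div_of_nonneg_left (by positivity) ?_ ?_
    · exact sum_pos (fun _ _ => add_pos_of_pos_of_nonneg one_pos (Nat.cast_nonneg _)) (card_pos.1 (by omega))
    · have : ∑ v ∈ U, (1 + (out v ∩ U).card) ≤ G.edgeFinset.card :=
        (sum_le_sum fun v _ => hout v).trans hdeg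
      exact_mod_cast this

theorem result (V : Type) [Fintype V] (G : SimpleGraph V) (n : ℕ) (hn1 : 1 ≤ n)
    (hn : Fintype.card V = 2 * n) (hG : ∃ M : G.Subgraph, M.IsPerfectMatching) :
    maxForcing G < n ∧ (n : ℚ) ^ 2 / ((n : ℚ) - maxForcing G) ≤ G.edgeSet.ncard := by
  classical
  obtain ⟨M, hM, hF⟩ : maxForcing G ∈ {k | ∃ M : G.Subgraph, M.IsPerfectMatching ∧ forcingNum M = k} := by
    refine Nat.sSup_mem ⟨_, hG.choose, hG.choose_spec, rfl⟩ ⟨n, ?_⟩
    rintro _ ⟨M, hM, rfl⟩
    obtain ⟨a, h1, -⟩ := main G n hn M hM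
    omega
  obtain ⟨a, h1, h2, h3⟩ := main G n hn M hM
  rw [hF] at h1
  have he : (0 : ℚ) < G.edgeFinset.card := by exact_mod_cast hn1.trans h3
  have hn0 : (0 : ℚ) < n := by exact_mod_cast hn1
  have ha : (0 : ℚ) < a := lt_of_lt_of_le (by positivity) h2
  have ha' : 0 < a := by exact_mod_cast ha
  have h4 : (maxForcing G : ℚ) + a ≤ n := by exact_mod_cast h1
  refine ⟨by omega, ?_⟩
  rw [← G.coe_edgeFinset, Set.ncard_coe_finset, div_le_iff₀ (by linarith)]
  rw [div_le_iff₀ he] at h2
  nlinarith

end Pool.Agent.Results.MP_f5b231_co.Bound
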